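import Mathlib
import Pool.Agent.Helper43.TJoin

set_option autoImplicit false

open Finset Classical

namespace Pool.Agent.Results.MP_f46ce3_an.BeurlingExists

universe u v

/-- `g` vanishes at the base point `o` and satisfies `|g a - g b| ≤ K * dist a b` for all points:
`g` belongs to `Lip₀(X)` and has norm at most `K`. -/
def IsLip0 {X : Type u} [MetricSpace X] (o : X) (K : ℝ) (g : X → ℝ) : Prop :=
  g o = 0 ∧ ∀ a b : X, |g a - g b| ≤ K * dist a b

/-- The difference quotient `D_{a,b} g`. -/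
noncomputable def dq {X : Type u} [MetricSpace X] (g : X → ℝ) (a b : X) : ℝ :=
  (g a - g b) / dist a b

/-- The pairs `(x i, y i)` consist of distinct points and the map
`g ↦ (D_{x i, y i} g)_i` from `Lip₀(X)` to `ℓ_∞(I)` is onto. -/
def IsInterpolating {X : Type u} {I : Type v} [MetricSpace X] (o : X) (x y : I → X) : Prop :=
  (∀ i, x i ≠ y i) ∧
    ∀ α : I → ℝ, (∃ B : ℝ, ∀ i, |α i| ≤ B) →
      ∃ (K : ℝ) (g : X → ℝ), IsLip0 o K g ∧ ∀ i, dq g (x i) (y i) = α i

/-- The interpolation constant: the infimum of all `K ≥ 1` such that every element of the closed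
unit ball of `ℓ_∞(I)` has a preimage of norm at most `K`. -/
noncomputable def interpConst {X : Type u} {I : Type v} [MetricSpace X] (o : X) (x y : I → X) : ℝ :=
  sInf {K : ℝ | 1 ≤ K ∧ ∀ α : I → ℝ, (∀ i, |α i| ≤ 1) →
    ∃ g : X → ℝ, IsLip0 o K g ∧ ∀ i, dq g (x i) (y i) = α i}

/-- Beurling sets for the family of pairs `(x i, y i)`. -/
def IsBeurlingSet {X : Type u} {I : Type v} [MetricSpace X] (o : X) (x y : I → X)
    (f : I → X → ℝ) : Prop :=
  (∀ i, ∃ K, IsLip0 o K (f i)) ∧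
  (∀ i, dq (f i) (x i) (y i) = 1) ∧
  (∀ i j, i ≠ j → dq (f i) (x j) (y j) = 0) ∧
  ∀ a b : X, a ≠ b →
    Summable (fun i => |dq (f i) a b|) ∧ ∑' i, |dq (f i) a b| ≤ interpConst o x y

section
variable {X : Type u} {I : Type v} [MetricSpace X]

def Adm (o : X) (x y : I → X) (K : ℝ) : Prop :=
  1 ≤ K ∧ ∀ α : I → ℝ, (∀ i, |α i| ≤ 1) →
    ∃ g : X → ℝ, IsLip0 o K g ∧ ∀ i, dq g (x i) (y i) = α i

lemma Adm.mono {o : X} {x y : I → X} {K K' : ℝ} (h : Adm o x y K) (hK : K ≤ K') :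
    Adm o x y K' := by
  refine ⟨h.1.trans hK, fun α hα => ?_⟩
  obtain ⟨g, hg, hg'⟩ := h.2 α hα
  exact ⟨g, ⟨hg.1, fun a b => (hg.2 a b).trans (mul_le_mul_of_nonneg_right hK dist_nonneg)⟩, hg'⟩

/-- The open mapping theorem for the interpolation map. -/
lemma exists_adm {o : X} {x y : I → X} (h : IsInterpolating o x y) : ∃ K, Adm o x y K := by
  let A := {p : X × X // p.1 ≠ p.2}
  let G : lp (fun _ : A => ℝ) ⊤ → X → ℝ := fun φ a =>
    if ha : a = o then 0 else φ ⟨(a, o), ha⟩ * dist a o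
  have hGadd : ∀ φ ψ a, G (φ + ψ) a = G φ a + G ψ a := by
    intro φ ψ a
    by_cases ha : a = o
    · simp [G, ha]
    · simp only [G, ha, dif_neg, not_false_eq_true, lp.coeFn_add]
      simp; ring
  have hGsmul : ∀ (c : ℝ) φ a, G (c • φ) a = c * G φ a := by
    intro c φ a
    by_cases ha : a = o
    · simp [G, ha]
    · simp only [G, ha, dif_neg, not_false_eq_true, lp.coeFn_smul]
      simp; ring
  have hGcont : ∀ a, Continuous (fun φ => G φ a) := by
    intro a
    by_cases ha : a = o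
    · simp only [G, ha, dif_pos]; exact continuous_const
    · simp only [G, ha, dif_neg, not_false_eq_true]
      exact ((lp.lipschitzWith_one_eval (E := fun _ : A => ℝ) ⊤ ⟨(a, o), ha⟩).continuous).mul
        continuous_const
  let L : Submodule ℝ (lp (fun _ : A => ℝ) ⊤) :=
    { carrier := {φ | ∀ p : A, φ p * dist p.1.1 p.1.2 = G φ p.1.1 - G φ p.1.2}
      add_mem' := by
        intro φ ψ hφ hψ p
        have h1 := hφ p
        have h2 := hψ p
        rw [hGadd, hGadd, lp.coeFn_add]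
        simp only [Pi.add_apply] at *
        linear_combination h1 + h2
      zero_mem' := by
        intro p
        have h1 : ∀ a, G 0 a = 0 := by
          intro a; have := hGsmul 0 0 a; simpa using this
        rw [h1, h1]; simp
      smul_mem' := by
        intro c φ hφ p
        have h1 := hφ p
        rw [hGsmul, hGsmul, lp.coeFn_smul]
        simp only [Pi.smul_apply, smul_eq_mul] at *
        linear_combination c * h1 }
  have hLmem : ∀ φ, φ ∈ L ↔ ∀ p : A, φ p * dist p.1.1 p.1.2 = G φ p.1.1 - G φ p.1.2 :=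
    fun φ => Iff.rfl
  have hLclosed : IsClosed (L : Set (lp (fun _ : A => ℝ) ⊤)) := by
    have : (L : Set (lp (fun _ : A => ℝ) ⊤)) =
        ⋂ p : A, {φ | φ p * dist p.1.1 p.1.2 = G φ p.1.1 - G φ p.1.2} := by
      ext φ; simp only [Set.mem_iInter]; exact hLmem φ
    rw [this]
    exact isClosed_iInter fun p => isClosed_eq
      (((lp.lipschitzWith_one_eval (E := fun _ : A => ℝ) ⊤ p).continuous).mul continuous_const)
      ((hGcont _).sub (hGcont _))
  have : CompleteSpace L := hLclosed.completeSpace_coe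
  -- the map
  have hmem : ∀ φ : lp (fun _ : A => ℝ) ⊤,
      Memℓp (fun i : I => (φ ⟨(x i, y i), h.1 i⟩ : ℝ)) ⊤ := by
    intro φ
    apply memℓp_infty
    refine ⟨‖φ‖, ?_⟩
    rintro _ ⟨i, rfl⟩
    exact lp.norm_apply_le_norm (by simp) φ _
  let T0 : L →ₗ[ℝ] lp (fun _ : I => ℝ) ⊤ :=
    { toFun := fun φ => ⟨fun i => (φ : lp (fun _ : A => ℝ) ⊤) ⟨(x i, y i), h.1 i⟩, hmem φ⟩
      map_add' := by
        intro φ ψ; ext i; rfl
      map_smul' := by
        intro c φ; ext i; rfl }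
  have hT0 : ∀ φ : L, ∀ i, (T0 φ) i = (φ : lp (fun _ : A => ℝ) ⊤) ⟨(x i, y i), h.1 i⟩ :=
    fun φ i => rfl
  let T : L →L[ℝ] lp (fun _ : I => ℝ) ⊤ := T0.mkContinuous 1 (by
    intro φ
    rw [one_mul]
    refine lp.norm_le_of_forall_le (norm_nonneg _) (fun i => ?_)
    rw [hT0]
    exact lp.norm_apply_le_norm (by simp) (φ : lp (fun _ : A => ℝ) ⊤) _)
  have hTapp : ∀ φ : L, ∀ i, (T φ) i = (φ : lp (fun _ : A => ℝ) ⊤) ⟨(x i, y i), h.1 i⟩ :=
    fun φ i => rfl
  have hsurj : Function.Surjective T := by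
    intro β
    obtain ⟨K, g, hg, hgα⟩ := h.2 (fun i => β i) ⟨‖β‖, fun i =>
      lp.norm_apply_le_norm (by simp) β i⟩
    have hmemg : Memℓp (fun p : A => dq g p.1.1 p.1.2) ⊤ := by
      apply memℓp_infty
      refine ⟨K, ?_⟩
      rintro _ ⟨p, rfl⟩
      have hd : 0 < dist p.1.1 p.1.2 := dist_pos.mpr p.2
      show ‖dq g p.1.1 p.1.2‖ ≤ K
      rw [Real.norm_eq_abs, dq, abs_div, abs_of_pos hd, div_le_iff₀ hd]
      exact hg.2 _ _
    have hG : ∀ a, G ⟨fun p : A => dq g p.1.1 p.1.2, hmemg⟩ a = g a := by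
      intro a
      by_cases ha : a = o
      · simp only [G, ha, dif_pos]; exact hg.1.symm
      · simp only [G, ha, dif_neg, not_false_eq_true]
        show dq g a o * dist a o = g a
        have hd : dist a o ≠ 0 := (dist_pos.mpr ha).ne'
        rw [dq, hg.1]; field_simp; ring
    have hinL : (⟨fun p : A => dq g p.1.1 p.1.2, hmemg⟩ : lp (fun _ : A => ℝ) ⊤) ∈ L := by
      rw [hLmem]
      intro p
      rw [hG, hG]
      show dq g p.1.1 p.1.2 * dist p.1.1 p.1.2 = _
      have hd : dist p.1.1 p.1.2 ≠ 0 := (dist_pos.mpr p.2).ne'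
      rw [dq]; field_simp
    refine ⟨⟨_, hinL⟩, ?_⟩
    ext i
    rw [hTapp]
    exact hgα i
  obtain ⟨C, hC, hC'⟩ := T.exists_preimage_norm_le hsurj
  refine ⟨max C 1, le_max_right _ _, fun α hα => ?_⟩
  have hmemα : Memℓp α ⊤ := by
    apply memℓp_infty
    refine ⟨1, ?_⟩
    rintro _ ⟨i, rfl⟩
    exact hα i
  obtain ⟨φ, hφ, hφn⟩ := hC' ⟨α, hmemα⟩
  have hnα : ‖(⟨α, hmemα⟩ : lp (fun _ : I => ℝ) ⊤)‖ ≤ 1 :=
    lp.norm_le_of_forall_le zero_le_one (fun i => hα i)
  have hφL := (hLmem _).mp φ.2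
  have hφn' : ‖(φ : lp (fun _ : A => ℝ) ⊤)‖ ≤ C := by
    calc ‖(φ : lp (fun _ : A => ℝ) ⊤)‖ = ‖φ‖ := rfl
      _ ≤ C * ‖(⟨α, hmemα⟩ : lp (fun _ : I => ℝ) ⊤)‖ := hφn
      _ ≤ C * 1 := mul_le_mul_of_nonneg_left hnα hC.le
      _ = C := mul_one C
  refine ⟨G φ, ⟨?_, ?_⟩, ?_⟩
  · simp [G]
  · intro a b
    by_cases hab : a = b
    · subst hab; simp
    · have h1 := hφL ⟨(a, b), hab⟩
      simp only at h1
      rw [← h1, abs_mul, abs_of_nonneg dist_nonneg]
      refine mul_le_mul_of_nonneg_right ?_ dist_nonneg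
      have h2 : ‖(φ : lp (fun _ : A => ℝ) ⊤) ⟨(a, b), hab⟩‖ ≤ ‖(φ : lp (fun _ : A => ℝ) ⊤)‖ :=
        lp.norm_apply_le_norm (by simp) _ _
      rw [Real.norm_eq_abs] at h2
      exact h2.trans (hφn'.trans (le_max_left _ _))
  · intro i
    have h1 := hφL ⟨(x i, y i), h.1 i⟩
    simp only at h1
    have hd : dist (x i) (y i) ≠ 0 := (dist_pos.mpr (h.1 i)).ne'
    rw [dq, ← h1, mul_div_assoc, div_self hd, mul_one]
    have h2 := hTapp φ i
    rw [hφ] at h2
    exact h2.symm

/-- Finite families on finite sets. -/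
lemma finite_extraction {o : X} {x y : I → X} (hxy : ∀ i, x i ≠ y i) {K : ℝ} (hK : Adm o x y K)
    (A : Finset X) (J : Finset I) :
    ∃ f : I → X → ℝ, (∀ i a, |f i a| ≤ K * dist a o) ∧
      (∀ i ∈ J, ∀ j ∈ J, f i (x j) - f i (y j) = if i = j then dist (x i) (y i) else 0) ∧
      ∀ a ∈ A, ∀ b ∈ A, ∑ i ∈ J, |f i a - f i b| ≤ K * dist a b := by
  have hK0 : 0 ≤ K := zero_le_one.trans hK.1
  let W : Finset X := insert o (A ∪ J.image x ∪ J.image y)
  have hoW : o ∈ W := mem_insert_self _ _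
  have hAW : ∀ a ∈ A, a ∈ W := fun a ha =>
    mem_insert_of_mem (mem_union_left _ (mem_union_left _ ha))
  have hxW : ∀ i ∈ J, x i ∈ W := fun i hi =>
    mem_insert_of_mem (mem_union_left _ (mem_union_right _ (mem_image_of_mem x hi)))
  have hyW : ∀ i ∈ J, y i ∈ W := fun i hi =>
    mem_insert_of_mem (mem_union_right _ (mem_image_of_mem y hi))
  let V := {a : X // a ∈ W}
  let I' := {i : I // i ∈ J}
  obtain ⟨f', hf1, hf2⟩ := Pool.Agent.Helper43.TJoin.finite_case (V := V) (I := I')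
    (fun a b => dist (a : X) (b : X)) (fun a b => dist_nonneg)
    (fun i => ⟨x i, hxW i i.2⟩) (fun i => ⟨y i, hyW i i.2⟩) (fun i => dist (x i) (y i))
    (fun i => dist_nonneg) K hK0 (by
      intro α hα
      let α' : I → ℝ := fun i => if hi : i ∈ J then α ⟨i, hi⟩ else 0
      have hα' : ∀ i, |α' i| ≤ 1 := by
        intro i
        by_cases hi : i ∈ J
        · simp only [α', hi, dif_pos]
          rcases hα ⟨i, hi⟩ with h | h <;> rw [h] <;> simp
        · simp only [α', hi, dif_neg, not_false_eq_true]; simp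
      obtain ⟨g, hg1, hg2⟩ := hK.2 α' hα'
      refine ⟨fun a => g a, fun a b => hg1.2 a b, fun i => ?_⟩
      have h1 := hg2 i
      have hd : dist (x i) (y i) ≠ 0 := (dist_pos.mpr (hxy i)).ne'
      have h2 : α' i = α i := by simp only [α', i.2, dif_pos]; rfl
      rw [dq, h2] at h1
      show g (x i) - g (y i) = α i * dist (x i) (y i)
      rw [← h1]; field_simp)
  let o' : V := ⟨o, hoW⟩
  refine ⟨fun i a => if hi : i ∈ J then (if ha : a ∈ W then f' ⟨i, hi⟩ ⟨a, ha⟩ - f' ⟨i, hi⟩ o'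
    else 0) else 0, ?_, ?_, ?_⟩
  · intro i a
    have hpos : 0 ≤ K * dist a o := mul_nonneg hK0 dist_nonneg
    by_cases hi : i ∈ J
    · by_cases ha : a ∈ W
      · simp only [hi, ha, dif_pos]
        have h1 := hf2 ⟨a, ha⟩ o'
        have h2 := single_le_sum (f := fun j : I' => |f' j ⟨a, ha⟩ - f' j o'|)
          (fun j _ => abs_nonneg _) (mem_univ (⟨i, hi⟩ : I'))
        exact h2.trans h1
      · simp only [hi, ha, dif_pos, dif_neg, not_false_eq_true]; simpa using hpos
    · simp only [hi, dif_neg, not_false_eq_true]; simpa using hpos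
  · intro i hi j hj
    simp only [hi, hxW j hj, hyW j hj, dif_pos]
    have h1 := hf1 ⟨i, hi⟩ ⟨j, hj⟩
    by_cases hij : i = j
    · subst hij
      rw [if_pos rfl] at h1 ⊢
      rw [← h1]; ring
    · have hne : (⟨i, hi⟩ : I') ≠ ⟨j, hj⟩ := fun h => hij (congrArg Subtype.val h)
      rw [if_neg hne] at h1
      rw [if_neg hij]; linarith
  · intro a ha b hb
    have h1 := hf2 ⟨a, hAW a ha⟩ ⟨b, hAW b hb⟩
    refine le_trans (le_of_eq ?_) h1
    rw [← Finset.sum_coe_sort J]
    refine sum_congr rfl (fun i _ => ?_)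
    simp only [i.2, hAW a ha, hAW b hb, dif_pos]
    congr 1; ring

end

/-- **Beurling sets always exist.** -/
theorem result {X : Type u} {I : Type v} [MetricSpace X] [Nonempty I] (o : X) (x y : I → X)
    (h : IsInterpolating o x y) : ∃ f : I → X → ℝ, IsBeurlingSet o x y f := by
  obtain ⟨K0, hK0⟩ := exists_adm h
  have hxy := h.1
  set M := interpConst o x y with hM
  have hset : M = sInf {K : ℝ | Adm o x y K} := rfl
  have hbdd : BddBelow {K : ℝ | Adm o x y K} := ⟨1, fun K hK => hK.1⟩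
  have hM1 : 1 ≤ M := by
    rw [hset]; exact le_csInf ⟨K0, hK0⟩ (fun K hK => hK.1)
  have hadm : ∀ n : ℕ, Adm o x y (M + 1 / ((n : ℝ) + 1)) := by
    intro n
    have hlt : sInf {K : ℝ | Adm o x y K} < M + 1 / ((n : ℝ) + 1) := by
      rw [← hset]; have : 0 < 1 / ((n : ℝ) + 1) := by positivity
      linarith
    obtain ⟨K, hK, hKlt⟩ := exists_lt_of_csInf_lt ⟨K0, hK0⟩ hlt
    exact Adm.mono hK hKlt.le
  have hle1 : ∀ n : ℕ, 1 / ((n : ℝ) + 1) ≤ 1 := by
    intro n
    rw [div_le_one (by positivity)]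
    have : (0 : ℝ) ≤ n := Nat.cast_nonneg n
    linarith
  -- the compact box
  let Box : Set (I → X → ℝ) := Set.pi Set.univ (fun _ => Set.pi Set.univ
    (fun a => Set.Icc (-((M + 1) * dist a o)) ((M + 1) * dist a o)))
  have hBox : IsCompact Box :=
    isCompact_univ_pi fun _ => isCompact_univ_pi fun _ => isCompact_Icc
  let S : Finset X × Finset I × ℕ → Set (I → X → ℝ) := fun q =>
    {f | (∀ i a, |f i a| ≤ (M + 1 / ((q.2.2 : ℝ) + 1)) * dist a o) ∧
      (∀ i ∈ q.2.1, ∀ j ∈ q.2.1, f i (x j) - f i (y j) = if i = j then dist (x i) (y i) else 0) ∧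
      ∀ a ∈ q.1, ∀ b ∈ q.1,
        ∑ i ∈ q.2.1, |f i a - f i b| ≤ (M + 1 / ((q.2.2 : ℝ) + 1)) * dist a b}
  have hcont : ∀ i a, Continuous (fun f : I → X → ℝ => f i a) := fun i a =>
    (continuous_apply a).comp (continuous_apply i)
  have hSclosed : ∀ q, IsClosed (S q) := by
    intro q
    have h1 : IsClosed {f : I → X → ℝ | ∀ i a, |f i a| ≤ (M + 1 / ((q.2.2 : ℝ) + 1)) * dist a o} := by
      simp only [Set.ofPred_forall]
      exact isClosed_iInter fun i => isClosed_iInter fun a =>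
        isClosed_le (hcont i a).abs continuous_const
    have h2 : IsClosed {f : I → X → ℝ | ∀ i ∈ q.2.1, ∀ j ∈ q.2.1,
        f i (x j) - f i (y j) = if i = j then dist (x i) (y i) else 0} := by
      simp only [Set.ofPred_forall]
      exact isClosed_iInter fun i => isClosed_iInter fun _ => isClosed_iInter fun j =>
        isClosed_iInter fun _ => isClosed_eq ((hcont i _).sub (hcont i _)) continuous_const
    have h3 : IsClosed {f : I → X → ℝ | ∀ a ∈ q.1, ∀ b ∈ q.1,
        ∑ i ∈ q.2.1, |f i a - f i b| ≤ (M + 1 / ((q.2.2 : ℝ) + 1)) * dist a b} := by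
      simp only [Set.ofPred_forall]
      exact isClosed_iInter fun a => isClosed_iInter fun _ => isClosed_iInter fun b =>
        isClosed_iInter fun _ => isClosed_le
          (continuous_finsetSum _ fun i _ => ((hcont i a).sub (hcont i b)).abs) continuous_const
    exact h1.inter (h2.inter h3)
  have hSsub : ∀ q, S q ⊆ Box := by
    intro q f hf i _ a _
    have h1 := abs_le.mp (hf.1 i a)
    have h2 : (M + 1 / ((q.2.2 : ℝ) + 1)) * dist a o ≤ (M + 1) * dist a o :=
      mul_le_mul_of_nonneg_right (by linarith [hle1 q.2.2]) dist_nonneg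
    exact ⟨by linarith [h1.1], by linarith [h1.2]⟩
  have hScomp : ∀ q, IsCompact (S q) := fun q => hBox.of_isClosed_subset (hSclosed q) (hSsub q)
  have hSne : ∀ q, (S q).Nonempty := by
    intro q
    obtain ⟨f, h1, h2, h3⟩ := finite_extraction hxy (hadm q.2.2) q.1 q.2.1
    exact ⟨f, h1, h2, h3⟩
  have hmono : ∀ q q' : Finset X × Finset I × ℕ, q.1 ⊆ q'.1 → q.2.1 ⊆ q'.2.1 → q.2.2 ≤ q'.2.2 →
      S q' ⊆ S q := by
    intro q q' h1 h2 h3 f hf
    have h4 : 1 / ((q'.2.2 : ℝ) + 1) ≤ 1 / ((q.2.2 : ℝ) + 1) := by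
      apply one_div_le_one_div_of_le (by positivity)
      have : (q.2.2 : ℝ) ≤ (q'.2.2 : ℝ) := by exact_mod_cast h3
      linarith
    have h5 : ∀ a b : X, (M + 1 / ((q'.2.2 : ℝ) + 1)) * dist a b ≤
        (M + 1 / ((q.2.2 : ℝ) + 1)) * dist a b := fun a b =>
      mul_le_mul_of_nonneg_right (by linarith) dist_nonneg
    refine ⟨fun i a => (hf.1 i a).trans (h5 a o), fun i hi j hj => hf.2.1 i (h2 hi) j (h2 hj),
      fun a ha b hb => ?_⟩
    exact ((sum_le_sum_of_subset_of_nonneg h2 (fun _ _ _ => abs_nonneg _)).trans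
      (hf.2.2 a (h1 ha) b (h1 hb))).trans (h5 a b)
  have hdir : Directed (fun x1 x2 => x1 ⊇ x2) S := by
    intro q q'
    refine ⟨(q.1 ∪ q'.1, q.2.1 ∪ q'.2.1, max q.2.2 q'.2.2), ?_, ?_⟩
    · exact hmono _ _ subset_union_left subset_union_left (le_max_left _ _)
    · exact hmono _ _ subset_union_right subset_union_right (le_max_right _ _)
  obtain ⟨f, hf⟩ := IsCompact.nonempty_iInter_of_directed_nonempty_isCompact_isClosed S hdir hSne
    hScomp hSclosed
  have hf' : ∀ q, f ∈ S q := fun q => Set.mem_iInter.mp hf q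
  -- sums over finite sets
  have hsum : ∀ (J : Finset I) (a b : X), ∑ i ∈ J, |f i a - f i b| ≤ M * dist a b := by
    intro J a b
    have h1 : ∀ n : ℕ, ∑ i ∈ J, |f i a - f i b| ≤ (M + 1 / ((n : ℝ) + 1)) * dist a b := by
      intro n
      exact (hf' ({a, b}, J, n)).2.2 a (by simp) b (by simp)
    have h2 : Filter.Tendsto (fun n : ℕ => (M + 1 / ((n : ℝ) + 1)) * dist a b) Filter.atTop
        (nhds ((M + 0) * dist a b)) :=
      (tendsto_const_nhds.add tendsto_one_div_add_atTop_nhds_zero_nat).mul_const _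
    rw [add_zero] at h2
    exact ge_of_tendsto' h2 h1
  have hval : ∀ i j, f i (x j) - f i (y j) = if i = j then dist (x i) (y i) else 0 := by
    intro i j
    exact (hf' (∅, {i, j}, 0)).2.1 i (by simp) j (by simp)
  refine ⟨f, ?_, ?_, ?_, ?_⟩
  · intro i
    refine ⟨M, ?_, fun a b => ?_⟩
    · have h1 := (hf' (∅, ∅, 0)).1 i o
      simpa using h1
    · simpa using hsum {i} a b
  · intro i
    have hd : dist (x i) (y i) ≠ 0 := (dist_pos.mpr (hxy i)).ne'
    rw [dq, hval i i]; simp [hd]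
  · intro i j hij
    rw [dq, hval i j]; simp [hij]
  · intro a b hab
    have hd : 0 < dist a b := dist_pos.mpr hab
    have hterm : ∀ J : Finset I, ∑ i ∈ J, |dq (f i) a b| ≤ M := by
      intro J
      have h1 : ∑ i ∈ J, |dq (f i) a b| = (∑ i ∈ J, |f i a - f i b|) / dist a b := by
        rw [sum_div]
        refine sum_congr rfl (fun i _ => ?_)
        rw [dq, abs_div, abs_of_pos hd]
      rw [h1, div_le_iff₀ hd]
      exact hsum J a b
    have hs : Summable (fun i => |dq (f i) a b|) :=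
      summable_of_sum_le (fun i => abs_nonneg _) hterm
    exact ⟨hs, hs.tsum_le_of_sum_le hterm⟩

end Pool.Agent.Results.MP_f46ce3_an.BeurlingExists
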